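import Pool.Agent.Q60.D3E.Stm
import Pool.Agent.Q128.D3.Conv

/-!
Jobs E3 (ISCM), E4 (PROD), E6 (SMALL), E7 (CONV) of project D3E.
-/

set_option autoImplicit false
set_option linter.unusedSectionVars false
set_option linter.unusedVariables false

namespace Pool.Agent.Q237.D3E

open Pool.Agent.H204R3.CM
open Pool.Agent.Q60.D3 (AV IsHom IsCM)
open Pool.Agent.Q60.D3E
open Pool.Agent.W547.KB (CMPair CMAV)
open Pool.Agent.W547.LN (SmallFactors SameType)
open Pool.Agent.Q128.D3 (hodge_unit hodge_zero hodge_add hodge_smul hodge_reindex hodge_cup hodge_pull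
  hodge_push)

/-- **E7** -/
theorem conv : S_conv := by
  intro X κ f h
  induction h with
  | unit f => exact fun _ => hodge_unit f
  | divisor hκ f hf => exact fun _ => hf
  | weil f hf => exact fun _ => hf.2.1
  | weil6 f hf => exact fun _ => hf.2.1
  | zero X κ => exact fun _ => hodge_zero X κ
  | add f g _ _ ihf ihg => exact fun h => hodge_add (ihf h) (ihg h)
  | smul a f _ ih => exact fun h => hodge_smul a (ih h)
  | reindex e f _ ih =>
    intro h
    exact hodge_reindex e (ih (Finite.of_equiv _ e.symm))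
  | cup f g _ _ h hh ihf ihg => exact fun _ => hodge_cup (ihf inferInstance) (ihg inferInstance) h hh
  | pull h hh f _ ih => exact fun hfin => hodge_pull hh (ih hfin)
  | push b f _ g hg ih =>
    intro h
    have := Module.Finite.finite_basis b
    exact hodge_push b (ih inferInstance) g hg

/-- the homology of a product -/
noncomputable def piH (X X' : CMAV) : (X.prod X').H1 ≃ₗ[ℚ] X.H1 × X'.H1 :=
  LinearEquiv.sumPiEquivProdPi ℚ X.I X'.I fun s => ((X.prod X').factor s).E

/-- the tangent space of a product -/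
noncomputable def piT (X X' : CMAV) : (X.prod X').Tan ≃ₗ[ℂ] X.Tan × X'.Tan :=
  LinearEquiv.sumPiEquivProdPi ℂ X.I X'.I fun s => (((X.prod X').factor s).Φ → ℂ)

/-- **E4** -/
theorem prod' : S_prod := by
  rintro Y Y' X X' ⟨e, C, hC⟩ ⟨e', C', hC'⟩
  refine ⟨(e.prodCongr e').trans (piH X X').symm, (C.prodCongr C').trans (piT X X').symm, fun w => ?_⟩
  apply (piT X X').injective
  have h0 : (piT X X') (((C.prodCongr C').trans (piT X X').symm) ((Y.prod Y').per w)) =
      (C (Y.per w.1), C' (Y'.per w.2)) := (piT X X').apply_symm_apply _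
  exact h0.trans (Prod.ext (hC w.1) (hC' w.2))

/-- the multiplications on the homology -/
noncomputable def mulA (X : CMAV) : X.H1 →ₐ[ℚ] Module.End ℚ X.H1 := Algebra.lmul ℚ X.H1

/-- the multiplications on the tangent space -/
noncomputable def mulT (X : CMAV) (x : X.H1) : X.Tan →ₗ[ℂ] X.Tan where
  toFun z := fun i φ => φ.1 (x i) * z i φ
  map_add' z z' := by
    funext i φ
    exact mul_add _ _ _
  map_smul' a z := by
    funext i φ
    exact mul_left_comm _ _ _

/-- **E3** -/
theorem iscm : S_iscm := by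
  rintro Y X ⟨e, C, hC⟩
  let Ψ : X.H1 →ₐ[ℚ] Module.End ℚ Y.H :=
    ((e.symm.conjAlgEquiv ℚ : Module.End ℚ X.H1 ≃ₐ[ℚ] Module.End ℚ Y.H) :
      Module.End ℚ X.H1 →ₐ[ℚ] Module.End ℚ Y.H).comp (mulA X)
  have hΨ : ∀ (x : X.H1) (w : Y.H), Ψ x w = e.symm (x * e w) := fun x w => rfl
  have hinj : Function.Injective Ψ := by
    intro x y hxy
    have h1 := LinearMap.congr_fun hxy (e.symm 1)
    rw [hΨ, hΨ, e.apply_symm_apply, mul_one, mul_one] at h1
    exact e.symm.injective h1
  refine ⟨Ψ.range, ?_, ?_, ?_, ?_⟩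
  · rintro _ ⟨x, rfl⟩
    refine ⟨C.symm.toLinearMap ∘ₗ mulT X x ∘ₗ C.toLinearMap, fun w => ?_⟩
    change C.symm (mulT X x (C (Y.per w))) = Y.per (e.symm (x * e w))
    rw [LinearEquiv.symm_apply_eq, hC, hC, e.apply_symm_apply]
    funext i φ
    exact (map_mul φ.1 (x i) (e w i)).symm
  · rintro _ ⟨x, rfl⟩ _ ⟨y, rfl⟩
    change Ψ x * Ψ y = Ψ y * Ψ x
    rw [← map_mul, ← map_mul, mul_comm]
  · rintro _ ⟨x, rfl⟩ h
    have h1 : Ψ x * Ψ x = 0 := h
    rw [← map_mul] at h1
    have h2 : x * x = 0 := (map_eq_zero_iff Ψ hinj).1 h1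
    have h3 : x = 0 := by
      funext i
      have h4 := congrFun h2 i
      exact mul_self_eq_zero.1 h4
    change Ψ x = 0
    rw [h3, map_zero]
  · rw [e.finrank_eq]
    exact (AlgEquiv.ofInjective Ψ hinj).toLinearEquiv.finrank_eq.symm

/-- a number field of degree two is Galois over the rationals -/
theorem galois_two (E : Type) [Field E] [NumberField E] (h : Module.finrank ℚ E = 2) : IsGalois ℚ E := by
  have : Algebra.IsQuadraticExtension ℚ E := ⟨h⟩
  infer_instance

/-- the images of a normal extension -/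
theorem range_normal {F K E : Type} [Field F] [Field K] [Field E] [Algebra F K] [Algebra F E]
    [Normal F E] (φ ψ : E →ₐ[F] K) : ψ.fieldRange = φ.fieldRange := by
  have h0 : ∀ (M : IntermediateField F K) (ε : E ≃ₐ[F] M), ψ.fieldRange = M := by
    intro M ε
    have hN : Normal F M := Normal.of_algEquiv ε
    let θ : M →ₐ[F] K := ψ.comp (ε.symm : M →ₐ[F] E)
    have h1 : θ.fieldRange = M := AlgHom.fieldRange_of_normal θ
    have h2 : ψ.fieldRange = θ.fieldRange := by
      ext z
      constructor
      · rintro ⟨x, rfl⟩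
        refine ⟨ε x, ?_⟩
        change ψ (ε.symm (ε x)) = ψ x
        rw [AlgEquiv.symm_apply_apply]
      · rintro ⟨x, rfl⟩
        exact ⟨ε.symm x, rfl⟩
    exact h2.trans h1
  exact h0 φ.fieldRange (AlgEquiv.ofInjectiveField φ)

/-- the normal closure of a quadratic field -/
theorem nc_two (E : Type) [Field E] [NumberField E] (h : Module.finrank ℚ E = 2) :
    Module.finrank ℚ (IntermediateField.normalClosure ℚ E ℂ) = 2 := by
  have hG := galois_two E h
  have := hG.to_normal
  obtain ⟨φ⟩ : Nonempty (E →ₐ[ℚ] ℂ) := ⟨IsAlgClosed.lift⟩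
  have h1 : IntermediateField.normalClosure ℚ E ℂ = φ.fieldRange := by
    rw [normalClosure_def]
    apply le_antisymm
    · apply iSup_le
      intro ψ
      rw [range_normal φ ψ]
    · exact le_iSup (fun ψ : E →ₐ[ℚ] ℂ => ψ.fieldRange) φ
  rw [h1, ← h]
  exact (AlgEquiv.ofInjectiveField φ).toLinearEquiv.finrank_eq.symm

theorem two_le (B : CMPair) : 2 ≤ Module.finrank ℚ B.E := by
  have h1 := Module.finrank_mul_finrank ℚ (NumberField.maximalRealSubfield B.E) B.E
  have h2 : Module.finrank (NumberField.maximalRealSubfield B.E) B.E = 2 :=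
    Algebra.IsQuadraticExtension.finrank_eq_two _ _
  have h3 : 0 < Module.finrank ℚ (NumberField.maximalRealSubfield B.E) := Module.finrank_pos
  rw [h2] at h1
  omega

/-- **E6** -/
theorem small : S_small := by
  intro 𝒮 h6 hcl X hX
  refine ⟨fun i => ?_, fun i k hik => ?_⟩
  · rcases hX i with h | h
    · exact h6 _ h
    · rw [h]
      norm_num
  · rcases hX i with hi | hi
    · rcases hX k with hk | hk
      · exact hcl _ hi _ hk hik
      · left
        apply galois_two
        apply le_antisymm _ (two_le _)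
        have h1 := nc_two _ hk
        rw [← hik] at h1
        obtain ⟨φ⟩ : Nonempty ((X.factor i).E →ₐ[ℚ] ℂ) := ⟨IsAlgClosed.lift⟩
        have h2 : φ.fieldRange ≤ IntermediateField.normalClosure ℚ (X.factor i).E ℂ := by
          rw [normalClosure_def]
          exact le_iSup (fun ψ : (X.factor i).E →ₐ[ℚ] ℂ => ψ.fieldRange) φ
        have h3 : Module.finrank ℚ φ.fieldRange = Module.finrank ℚ (X.factor i).E :=
          (AlgEquiv.ofInjectiveField φ).toLinearEquiv.finrank_eq.symm
        rw [← h3, ← h1]
        have : FiniteDimensional ℚ (IntermediateField.normalClosure ℚ (X.factor i).E ℂ) := by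
          apply Module.finite_of_finrank_pos
          rw [h1]
          norm_num
        exact LinearMap.finrank_le_finrank_of_injective
          (f := (IntermediateField.inclusion h2).toLinearMap)
          (IntermediateField.inclusion h2).injective
    · exact Or.inl (galois_two _ hi)

end Pool.Agent.Q237.D3E
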