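import Pool.Agent.Q60.D3E.Stm

/-!
Job E5 (RING) of project D3E.
-/

set_option autoImplicit false
set_option linter.unusedSectionVars false
set_option linter.unusedVariables false

namespace Pool.Agent.Q237.D3E

open NumberField Pool.Agent.H204R3.CM
open Pool.Agent.Q60.D3 (AV IsHom IsCM IsWeilClass)
open Pool.Agent.Q60.D3E
open Pool.Agent.W547.KB (CMPair CMAV span_perX)
open Pool.Agent.W547.LD (DWRing IsPolarization)
open Module

noncomputable section

theorem card_type (A : CMPair) : finrank ℚ A.E = 2 * Nat.card A.Φ := by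
  classical
  have h1 : Fintype.card (A.E →+* ℂ) = finrank ℚ A.E := Embeddings.card A.E ℂ
  have h2 : Nat.card A.Φ = Nat.card (A.Φᶜ : Set (A.E →+* ℂ)) := by
    refine Nat.card_congr ⟨fun φ => ⟨ComplexEmbedding.conjugate φ.1, (A.isCMType φ.1).1 φ.2⟩,
      fun φ => ⟨ComplexEmbedding.conjugate φ.1, ?_⟩, fun φ => ?_, fun φ => ?_⟩
    · rw [A.isCMType]
      have h3 : ComplexEmbedding.conjugate (ComplexEmbedding.conjugate φ.1) = φ.1 :=
        star_star φ.1
      rw [h3]
      exact φ.2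
    · exact Subtype.ext (star_star φ.1)
    · exact Subtype.ext (star_star φ.1)
  have h3 : Nat.card (A.E →+* ℂ) = Nat.card A.Φ + Nat.card (A.Φᶜ : Set (A.E →+* ℂ)) := by
    rw [← Nat.card_sum]
    exact Nat.card_congr (Equiv.Set.sumCompl A.Φ).symm
  rw [← h1, ← Nat.card_eq_fintype_card, h3, ← h2]
  ring

theorem finrank_H1 (X : CMAV) : finrank ℚ X.H1 = 2 * finrank ℂ X.Tan := by
  classical
  have h1 : finrank ℂ X.Tan = ∑ i, Nat.card (X.factor i).Φ := by
    have h2 : finrank ℂ X.Tan = ∑ i, finrank ℂ ((X.factor i).Φ → ℂ) :=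
      Module.finrank_pi_fintype ℂ
    rw [h2]
    refine Finset.sum_congr rfl fun i _ => ?_
    rw [Module.finrank_fintype_fun_eq_card, Nat.card_eq_fintype_card]
  have h2 : finrank ℚ X.H1 = ∑ i, finrank ℚ (X.factor i).E := Module.finrank_pi_fintype ℚ
  rw [h1, h2, Finset.mul_sum]
  exact Finset.sum_congr rfl fun i _ => card_type (X.factor i)

/-- the abelian variety, with a polarization -/
def ofCM (X : CMAV) (hpol : ∃ E : X.H1 → X.H1 → ℚ, IsPolarization X E) : AV where
  H := X.H1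
  T := X.Tan
  per := X.per
  span := span_perX X
  dim := finrank_H1 X
  pol := by
    obtain ⟨E, H, h1, h2, h3, h4⟩ := hpol
    exact ⟨H, h1, h2, h3, fun v w => ⟨E v w, h4 v w⟩⟩

/-- **E5** -/
theorem ring' : S_ring := by
  intro Y X e C hC κ f hf
  induction hf with
  | unit f => exact Gen.unit _
  | divisor hκ f hf =>
    exact Gen.divisor hκ _ (Pool.Agent.W437.HK.isHodge_pullback (Φ := C.toLinearMap) (fun w => (hC w).symm) hf)
  | @weil Z n hn f hf h hh =>
    obtain ⟨hdim, hH, d, g, hd, hg, hgg, hmove, hsplit⟩ := hf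
    obtain ⟨E, W, hpol, hE, hW, hWg, hW0⟩ := hsplit
    let Z' : AV := ofCM Z ⟨E, hpol⟩
    have hg' : IsHom Z' Z' g := hg
    have hdim' : finrank ℂ Z'.T = n := by
      have h1 : finrank ℚ Z.H1 = 2 * finrank ℂ Z.Tan := finrank_H1 Z
      rw [hdim] at h1
      change finrank ℂ Z.Tan = n
      omega
    have hpull : IsHom Y Z' (h ∘ₗ e.toLinearMap) := by
      obtain ⟨D, hD⟩ := hh
      refine ⟨D ∘ₗ C.toLinearMap, fun w => ?_⟩
      change D (C (Y.per w)) = Z.per (h (e w))
      rw [hC, hD]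
    rcases hn with rfl | rfl
    · let f' : Z'.H [⋀^Fin 4]→ₗ[ℚ] ℚ := f
      have hH' : IsHodge Z'.per f' := hH
      have hw : IsWeilClass Z' f' := ⟨hdim', hH', d, g, hd, hg', hgg, hmove⟩
      exact Gen.pull (X := Y) (Y := Z') (h ∘ₗ e.toLinearMap) hpull f' (Gen.weil f' hw)
    · have hs : IsSplit Z' g := by
        obtain ⟨H, k1, k2, k3, k4⟩ := hpol
        refine ⟨H, W, k1, k2, k3, fun v w => ⟨E v w, k4 v w⟩, fun v w => ?_, hW, hWg, fun v hv w hw => ?_⟩
        · have e1 := k4 (g v) w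
          have e2 := k4 v (g w)
          have e3 := hE v w
          change (H (Z.per (g v)) (Z.per w)).im = -(H (Z.per v) (Z.per (g w))).im
          rw [e1, e2, e3]
          push_cast
          rfl
        · have e1 := k4 v w
          change (H (Z.per v) (Z.per w)).im = 0
          rw [e1, hW0 v hv w hw, Rat.cast_zero]
      let f' : Z'.H [⋀^Fin 6]→ₗ[ℚ] ℚ := f
      have hH' : IsHodge Z'.per f' := hH
      have hw : IsSplitWeilClass Z' 6 f' := ⟨hdim', hH', d, g, hd, hg', hgg, hmove, hs⟩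
      exact Gen.pull (X := Y) (Y := Z') (h ∘ₗ e.toLinearMap) hpull f' (Gen.weil6 f' hw)
  | zero κ => exact Gen.zero Y κ
  | add f g _ _ ihf ihg => exact Gen.add _ _ ihf ihg
  | smul a f _ ih => exact Gen.smul a _ ih
  | reindex e' f _ ih => exact Gen.reindex e' _ ih
  | cup f g _ _ h hh ihf ihg =>
    exact Gen.cup _ _ ihf ihg (h.compLinearMap e.toLinearMap) fun v => hh fun k => e (v k)

end

end Pool.Agent.Q237.D3E
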